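import Mathlib

set_option autoImplicit false

open Set Cardinal

namespace Pool.Agent.Results.MP_8a117e_lc.Strong

/-- `L ↠ K`: there is a weakly order-preserving surjection from `L` onto `K`. -/
def Onto (L K : Set ℝ) : Prop := ∃ f : L → K, Monotone f ∧ Function.Surjective f

/-- `L` is strongly surjective: `L ↠ K` for every nonempty suborder `K ⊆ L`. -/
def StronglySurj (L : Set ℝ) : Prop := ∀ K ⊆ L, K.Nonempty → Onto L K

/-- `L` is `κ`-surjective: `|L| ≥ κ` and `L ↠ K` for every suborder `K ⊆ L` of size `κ`. -/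
def KSurj (κ : Cardinal) (L : Set ℝ) : Prop := κ ≤ #L ∧ ∀ K ⊆ L, #K = κ → Onto L K

theorem small_union {κ : Cardinal} (hκ : ℵ₀ ≤ κ) {A B : Set ℝ} (hA : #A < κ) (hB : #B < κ) :
    #(A ∪ B : Set ℝ) < κ := (mk_union_le _ _).trans_lt (add_lt_of_lt hκ hA hB)

theorem init_small {κ : Cardinal} (hr : κ.IsRegular) (h0 : ℵ₀ < κ) (L : Set ℝ) :
    #{x | x ∈ L ∧ #(L ∩ Iic x : Set ℝ) < κ} < κ := by
  set I := {x | x ∈ L ∧ #(L ∩ Iic x : Set ℝ) < κ} with hI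
  have h1 : #(⋃ q : {q : ℚ // #(L ∩ Iic (q : ℝ) : Set ℝ) < κ}, L ∩ Iic (q : ℝ) : Set ℝ) < κ :=
    (card_iUnion_lt_iff_forall_of_isRegular hr (mk_le_aleph0.trans_lt h0)).2 fun q => q.2
  have h2 : #{x | x ∈ I ∧ ∀ y ∈ I, y ≤ x} < κ := by
    refine lt_of_le_of_lt (le_aleph0_iff_set_countable.2 (Set.Subsingleton.countable ?_)) h0
    exact fun a ha b hb => le_antisymm (hb.2 a ha.1) (ha.2 b hb.1)
  refine lt_of_le_of_lt (mk_le_mk_of_subset fun x hx => ?_) (small_union h0.le h1 h2)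
  by_cases hc : ∀ y ∈ I, y ≤ x
  · exact Or.inr ⟨hx, hc⟩
  · push Not at hc
    obtain ⟨y, hy, hxy⟩ := hc
    obtain ⟨q, hq1, hq2⟩ := exists_rat_btwn hxy
    exact Or.inl (mem_iUnion.2 ⟨⟨q, (mk_le_mk_of_subset
      (inter_subset_inter_right _ (Iic_subset_Iic.2 hq2.le))).trans_lt hy.2⟩, hx.1, hq1.le⟩)

theorem init_big {κ : Cardinal} (hr : κ.IsRegular) (h0 : ℵ₀ < κ) {L : Set ℝ} (hL : #L = κ)
    (h : KSurj κ L) : ∀ x ∈ L, #(L ∩ Iic x : Set ℝ) = κ := by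
  intro x hx
  refine le_antisymm (hL ▸ mk_le_mk_of_subset inter_subset_left) (le_of_not_gt fun hc => ?_)
  have hI := init_small hr h0 L
  set I := {x | x ∈ L ∧ #(L ∩ Iic x : Set ℝ) < κ} with hIdef
  have hM : #(L \ I : Set ℝ) = κ := by
    refine le_antisymm (hL ▸ mk_le_mk_of_subset sdiff_subset) (le_of_not_gt fun hc' => ?_)
    refine (small_union h0.le hI hc').not_ge (hL ▸ mk_le_mk_of_subset fun y hy => ?_)
    by_cases h1 : y ∈ I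
    · exact Or.inl h1
    · exact Or.inr ⟨hy, h1⟩
  obtain ⟨f, hf1, hf2⟩ := h.2 _ sdiff_subset hM
  let y : ℝ := f ⟨x, hx⟩
  have hy : y ∈ L \ I := (f ⟨x, hx⟩).2
  refine hy.2 ⟨hy.1, ?_⟩
  let g : (L ∩ Iic x : Set ℝ) → ℝ := fun z => f ⟨z, z.2.1⟩
  refine lt_of_le_of_lt (mk_le_mk_of_subset fun m hm => ?_)
    (small_union h0.le hI (mk_range_le.trans_lt hc : #(range g) < κ))
  by_cases h1 : m ∈ I
  · exact Or.inl h1
  obtain ⟨z, hz⟩ := hf2 ⟨m, hm.1, h1⟩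
  rcases le_total (z : ℝ) x with h2 | h2
  · exact Or.inr ⟨⟨z, z.2, h2⟩, congrArg Subtype.val hz⟩
  · refine Or.inr ⟨⟨x, hx, mem_Iic.2 le_rfl⟩, le_antisymm ?_ hm.2⟩
    have := hf1 (show (⟨x, hx⟩ : L) ≤ z from h2)
    rw [hz] at this
    exact this

theorem onto_neg {L K : Set ℝ} (h : Onto L K) : Onto (-L) (-K) := by
  obtain ⟨f, h1, h2⟩ := h
  refine ⟨fun x => ⟨-(f ⟨-x, x.2⟩ : ℝ), by simp⟩, fun a b hab => ?_, fun k => ?_⟩
  · have h3 : -(b : ℝ) ≤ -(a : ℝ) := neg_le_neg (Subtype.coe_le_coe.2 hab)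
    have h4 : (f ⟨-b, b.2⟩ : ℝ) ≤ f ⟨-a, a.2⟩ := h1 (show (⟨-b, b.2⟩ : L) ≤ ⟨-a, a.2⟩ from h3)
    exact Subtype.mk_le_mk.2 (neg_le_neg h4)
  · obtain ⟨z, hz⟩ := h2 ⟨-k, k.2⟩
    exact ⟨⟨-z, by simp⟩, Subtype.ext (by simp [hz])⟩

theorem general {κ : Cardinal} (hr : κ.IsRegular) (h0 : ℵ₀ < κ) {L : Set ℝ} (hL : #L = κ)
    (h : KSurj κ L) : StronglySurj L := by
  rintro K hK ⟨k, hk⟩
  have hneg : ∀ A : Set ℝ, #(-A : Set ℝ) = #A := fun A => mk_neg A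
  have h' : KSurj κ (-L) := ⟨by rw [hneg]; exact h.1, fun A hA hA' => by
    have := onto_neg (h.2 (-A) (Set.neg_subset.2 hA) (by rw [hneg, hA']))
    rwa [neg_neg] at this⟩
  have h1 : #(L ∩ Ici k : Set ℝ) = κ := by
    rw [← hneg, ← init_big hr h0 (by rw [hneg, hL]) h' (-k) (by simpa using hK hk)]
    simp
  have hT : #(K ∪ L ∩ Ici k : Set ℝ) = κ :=
    le_antisymm (hL ▸ mk_le_mk_of_subset (union_subset hK inter_subset_left))
      (h1 ▸ mk_le_mk_of_subset subset_union_right)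
  obtain ⟨f, hf1, hf2⟩ := h.2 _ (union_subset hK inter_subset_left) hT
  let K' : Set ℝ := {x | ∃ hx : x ∈ L, (f ⟨x, hx⟩ : ℝ) ∈ K}
  have hK'L : K' ⊆ L := fun x hx => hx.1
  obtain ⟨x, hx⟩ := hf2 ⟨k, Or.inl hk⟩
  have hK' : #K' = κ := by
    refine le_antisymm (hL ▸ mk_le_mk_of_subset hK'L) ?_
    rw [← init_big hr h0 hL h x x.2]
    refine mk_le_mk_of_subset fun z hz => ⟨hz.1, ?_⟩
    have h2 := hf1 (show (⟨z, hz.1⟩ : L) ≤ x from hz.2)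
    rw [hx] at h2
    rcases (f ⟨z, hz.1⟩).2 with h3 | h3
    · exact h3
    · rw [le_antisymm h2 h3.2]; exact hk
  obtain ⟨g, hg1, hg2⟩ := h.2 _ hK'L hK'
  refine ⟨fun z => ⟨f ⟨g z, (g z).2.1⟩, (g z).2.2⟩, fun a b hab => hf1 (hg1 hab), fun m => ?_⟩
  obtain ⟨z, hz⟩ := hf2 ⟨m, Or.inl m.2⟩
  obtain ⟨w, hw⟩ := hg2 ⟨z, z.2, by rw [hz]; exact m.2⟩
  exact ⟨w, Subtype.ext (by simp [hw, hz])⟩

theorem result (L : Set ℝ) (hL : #L = ℵ_ 2) (h : KSurj (ℵ_ 2) L) : StronglySurj L := by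
  refine general ?_ (by rw [← aleph_zero, aleph_lt_aleph]; simp) hL h
  have := isRegular_aleph_add_one 1
  rwa [one_add_one_eq_two] at this

end Pool.Agent.Results.MP_8a117e_lc.Strong
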